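import Pool.Agent.K6.H57.VL.Vg

/-!
# Large gaps, clusters, and large deviations of sums of consecutive gaps

Assume the Riemann hypothesis and let `δ_n` be the unfolded gaps between consecutive zeros of the
Riemann zeta function.  We prove: for every `ε > 0` there is `C` such that for all `r ≥ 1` and
`y ≥ C log (2 r)`, for all large `N`,

`#{n ≤ N : |δ_n + ... + δ_{n+r-1} - r| ≥ y} ≤ N exp (-(1 - ε) y log (y / log (2 r)))`.

For `r = 1` this is the bound `exp (-(1 - ε) x log x)` for the proportion of the gaps `δ_n ≥ x`: the
tail of the law of the gaps is lighter than the exponential tail `exp (-x)` of independent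
(Poissonian) zeros; the GUE hypothesis predicts `exp (-(π² / 8 + o(1)) x²)`.  For fixed `x` and large
`r` it bounds the proportion of the clusters of `r` gaps in an interval of length `x` by
`exp (-(1 - ε) r log r)`, and so the proportion of zeros of multiplicity at least `r`.

Idea of the proof.  The number of zeros in an interval is compared with the Beurling-Selberg
majorant and minorant whose Fourier transforms are supported in `[-1/s, 1/s]`, in units of the mean
spacing; they lose exactly `s` zeros.  Their extremality comes from Vaaler's inequality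
`|H(x) - sgn x| ≤ (sin π x / π x)²`, for which we give a short proof from the Fourier integral of `H`.
By the explicit formula the error is a Dirichlet polynomial over the primes up to `T^(1/s)`, of
variance `O(log (2 r))`, whose moments of every order `2 b` with `b < s` are bounded by the diagonal:
this is the whole range in which the correlations of the zeros are known.  A deviation by `y` makes
the polynomial larger than `y - s`; we take `s = (1 - η) y` and `b = (1 - 2 η) y`.  The bound is
transferred to the zeros by averaging over the interval of one mean spacing that precedes a zero,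
with moments of the product of two polynomials.
-/

set_option autoImplicit false

open Filter Topology

namespace Pool.Agent.Results.MP_7eacff_nt.LargeDeviations

/-- multiplicity of `s` as a zero of the Riemann zeta function (order of vanishing at `s`) -/
noncomputable def zmult (s : ℂ) : ℕ := analyticOrderNatAt riemannZeta s

/-- the number of nontrivial zeros of `ζ` with ordinate in `(0, t]`, with multiplicity -/
noncomputable def NZ (t : ℝ) : ℕ :=
  ∑ᶠ s ∈ {s : ℂ | riemannZeta s = 0 ∧ 0 < s.re ∧ s.re < 1 ∧ 0 < s.im ∧ s.im ≤ t}, zmult s

/-- for `n ≥ 1`: the `n`-th positive ordinate `γ n` of a nontrivial zero of `ζ`, the ordinates being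
listed in nondecreasing order and repeated according to multiplicity -/
noncomputable def γ (n : ℕ) : ℝ := sInf {t : ℝ | n ≤ NZ t}

/-- the unfolded consecutive gaps `δ_n = (γ_{n+1} - γ_n) / 2π · log (γ_n / 2π)` -/
noncomputable def δ (n : ℕ) : ℝ := (γ (n + 1) - γ n) / (2 * Real.pi) * Real.log (γ n / (2 * Real.pi))

/-- the discrepancy `(δ_n + ... + δ_{n+r-1}) - r` of the block of `r` gaps starting at the
`n`-th zero -/
noncomputable def D (r n : ℕ) : ℝ := ∑ i ∈ Finset.range r, δ (n + i) - r

lemma D_eq (r n : ℕ) : D r n = Pool.Agent.R320.CL.SS r n - r := rfl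

/-- **Theorem.** On the Riemann hypothesis, for every `ε > 0` there is `C` such that for every
`r ≥ 1` and every `y ≥ C log (2 r)` the proportion of the `n ≤ N` for which the sum of the `r`
consecutive gaps `δ_n, ..., δ_{n+r-1}` differs from its mean value `r` by at least `y` is at most
`exp (-(1 - ε) y log (y / log (2 r)))`, for all large `N`. -/
theorem result (RH : RiemannHypothesis) (ε : ℝ) (hε : 0 < ε) :
    ∃ C : ℝ, ∀ r : ℕ, 1 ≤ r → ∀ y : ℝ, C * Real.log (2 * r) ≤ y → ∃ N₀ : ℕ, ∀ N ≥ N₀,
      ({n : ℕ | 1 ≤ n ∧ n ≤ N ∧ y ≤ |D r n|}.ncard : ℝ) ≤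
        Real.exp (-((1 - ε) * y * Real.log (y / Real.log (2 * r)))) * N := by
  classical
  obtain ⟨C, -, h⟩ := Pool.Agent.K6.H57.VL.fin RH hε
  refine ⟨C, fun r hr y hy => ?_⟩
  obtain ⟨N₀, hN₀⟩ := eventually_atTop.1 (h r hr y hy)
  refine ⟨N₀, fun N hN => ?_⟩
  have h1 := hN₀ N hN
  refine le_trans (le_of_eq ?_) h1
  rw [← Set.ncard_coe_finset]
  congr 2
  ext n
  rw [Finset.mem_coe, Finset.mem_filter, Finset.mem_Icc]
  constructor
  · rintro ⟨a, b, c⟩
    exact ⟨⟨a, b⟩, c⟩
  · rintro ⟨⟨a, b⟩, c⟩
    exact ⟨a, b, c⟩

end Pool.Agent.Results.MP_7eacff_nt.LargeDeviations
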