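import Pool.Agent.K6.H57.ML.Fi

/-!
# The Gaussian limit of the gap sequence at mesoscopic scales

Assume the Riemann hypothesis.  Let `δ_n` be the unfolded gaps between consecutive zeros of the
Riemann zeta function.  For a test function `w ∈ C_c^∞((0, ∞))` and a scale `h` put

`G_h(w, n) = ∑_{k ≥ 0} w(k/h) (δ_{n+k} - 1)`.

We prove that, as `h → ∞`, for `n` uniformly distributed in `{1, ..., N}` and any test functions
`w_1, ..., w_d` the vector `(G_h(w_1, n), ..., G_h(w_d, n))` converges in law to the centred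
Gaussian vector with the covariances

`∫ |ξ| ŵ_i(ξ) conj(ŵ_j(ξ)) dξ`,

uniformly in all `N` with `h (log h)² ≤ B log N`.  This is the law predicted by the GUE hypothesis:
the rescaled gap sequence is, at every mesoscopic scale, the Gaussian `1/f` noise (the random
distribution with spectral density `|ξ|`); no normalisation is needed, as the sums of `≍ h` gaps
have bounded fluctuations (independent gaps would fluctuate by `√h`).

Idea of the proof.  The explicit formula writes the smooth linear statistics of the zeros near a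
point `t`, at a scale that is short compared with `log T`, as a Dirichlet polynomial over the primes
up to a small power of `T`, up to a negligible mean square error.  The moments of the polynomial give
a Gaussian law for uniformly distributed `t`; the law is transferred to the points `t = γ_n` by
comparison with the average over a long block of zeros following `t`, and finally to the index
scale by linearising the inverse of the counting function, whose local fluctuations are controlled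
by the moments of the gap sums.
-/

set_option autoImplicit false

open Filter Topology MeasureTheory Set ProbabilityTheory
open scoped ContDiff FourierTransform ENNReal ComplexConjugate Matrix

namespace Pool.Agent.Results.MP_7eacff_nt.MesoscopicGaussian

/-- multiplicity of `s` as a zero of the Riemann zeta function (order of vanishing at `s`) -/
noncomputable def zmult (s : ℂ) : ℕ := analyticOrderNatAt riemannZeta s

/-- the number of nontrivial zeros of `ζ` with ordinate in `(0, t]`, with multiplicity -/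
noncomputable def NZ (t : ℝ) : ℕ :=
  ∑ᶠ s ∈ {s : ℂ | riemannZeta s = 0 ∧ 0 < s.re ∧ s.re < 1 ∧ 0 < s.im ∧ s.im ≤ t}, zmult s

/-- for `n ≥ 1`: the `n`-th positive ordinate `γ n` of a nontrivial zero of `ζ`, the ordinates being
listed in nondecreasing order and repeated according to multiplicity -/
noncomputable def γ (n : ℕ) : ℝ := sInf {t : ℝ | n ≤ NZ t}

/-- the unfolded consecutive gaps `δ_n = (γ_{n+1} - γ_n) / 2π · log (γ_n / 2π)` -/
noncomputable def δ (n : ℕ) : ℝ := (γ (n + 1) - γ n) / (2 * Real.pi) * Real.log (γ n / (2 * Real.pi))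

/-- the linear statistic `G_h(w, n) = ∑_{k ≥ 0} w(k/h) (δ_{n+k} - 1)` of the gaps that follow the
`n`-th zero (a finite sum when `w` has compact support) -/
noncomputable def G (h : ℝ) (w : ℝ → ℝ) (n : ℕ) : ℝ := ∑' k : ℕ, w (k / h) * (δ (n + k) - 1)

/-- the covariance matrix `∫ |ξ| Re(ŵ_i(ξ) conj(ŵ_j(ξ))) dξ`, with
`ŵ(ξ) = ∫ w(x) exp(-2π i x ξ) dx` -/
noncomputable def Cov {d : ℕ} (w : Fin d → ℝ → ℝ) : Matrix (Fin d) (Fin d) ℝ :=
  fun i j => ∫ ξ : ℝ, |ξ| * (𝓕 (fun x : ℝ => (w i x : ℂ)) ξ * conj (𝓕 (fun x : ℝ => (w j x : ℂ)) ξ)).re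

open Pool.Agent.K6.H57.ML

lemma δ_eq (n : ℕ) : δ n = Pool.Agent.R320.CL.dl n := rfl

lemma G_eq {R : ℝ} {w : ℝ → ℝ} (hw : Ts R w) {h : ℝ} (hh : 0 < h) (n : ℕ) :
    G h w n = Gs w h ⌈2 * (R * h)⌉₊ n := by
  have hR := hw.pos
  unfold G Gs
  rw [tsum_eq_sum (s := Finset.range ⌈2 * (R * h)⌉₊)]
  · rfl
  · intro k hk
    rw [Finset.mem_range, not_lt] at hk
    have h1 : 2 * (R * h) ≤ k := (Nat.le_ceil _).trans (by exact_mod_cast hk)
    rw [hw.zero_ge, zero_mul]
    rw [le_div_iff₀ hh]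
    have : 0 < R * h := by positivity
    linarith

/-- the test functions have a common support -/
lemma common {d : ℕ} (w : Fin d → ℝ → ℝ) (hw : ∀ i, ContDiff ℝ ∞ (w i)) (hc : ∀ i, HasCompactSupport (w i))
    (hs : ∀ i, tsupport (w i) ⊆ Ioi 0) : ∃ R : ℝ, 0 < R ∧ ∀ i, Ts R (w i) := by
  have h1 : ∀ i, ∃ r : ℝ, ∀ x ∈ tsupport (w i), x < r := by
    intro i
    obtain ⟨r, hr⟩ := (hc i).isCompact.bddAbove
    exact ⟨r + 1, fun x hx => by linarith [hr hx]⟩
  choose r hr using h1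
  have hR : 0 < 1 + ∑ i, |r i| := by
    have : 0 ≤ ∑ i, |r i| := Finset.sum_nonneg fun _ _ => abs_nonneg _
    linarith
  refine ⟨1 + ∑ i, |r i|, hR, fun i => ⟨⟨hw i, hc i⟩, hR, fun x hx => ⟨hs i hx, ?_⟩⟩⟩
  have h2 := hr i x hx
  have h3 : |r i| ≤ ∑ j, |r j| := Finset.single_le_sum (f := fun j => |r j|) (fun _ _ => abs_nonneg _) (Finset.mem_univ i)
  linarith [le_abs_self (r i)]

lemma Ts_sum {d : ℕ} {R : ℝ} (hR : 0 < R) {w : Fin d → ℝ → ℝ} (hw : ∀ i, Ts R (w i)) (t : Fin d → ℝ) :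
    Ts R fun x => ∑ i, t i * w i x := by
  have h0 : ∀ x, x ∉ ⋃ i, tsupport (w i) → ∑ i, t i * w i x = 0 := by
    intro x hx
    apply Finset.sum_eq_zero
    intro i _
    have : w i x = 0 := image_eq_zero_of_notMem_tsupport fun hc => hx (mem_iUnion.2 ⟨i, hc⟩)
    rw [this, mul_zero]
  have hcl : IsClosed (⋃ i, tsupport (w i)) := isClosed_iUnion_of_finite fun i => isClosed_tsupport _
  have hcp : IsCompact (⋃ i, tsupport (w i)) := isCompact_iUnion fun i => (hw i).cc.cs.isCompact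
  have hsub : tsupport (fun x => ∑ i, t i * w i x) ⊆ ⋃ i, tsupport (w i) := by
    apply closure_minimal _ hcl
    intro x hx
    by_contra hcon
    exact hx (h0 x hcon)
  refine ⟨⟨?_, ?_⟩, hR, hsub.trans (iUnion_subset fun i => (hw i).supp)⟩
  · exact ContDiff.sum fun i _ => contDiff_const.mul (hw i).cc.sm
  · exact hcp.of_isClosed_subset (isClosed_tsupport _) hsub

lemma hat_sum {d : ℕ} {w : Fin d → ℝ → ℝ} (hw : ∀ i, Cc (w i)) (t : Fin d → ℝ) (ξ : ℝ) :
    hat (fun x => ∑ i, t i * w i x) ξ = ∑ i, (t i : ℂ) * hat (w i) ξ := by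
  unfold hat
  simp only [Real.fourier_eq]
  rw [← Finset.sum_congr rfl fun i _ => integral_const_mul _ _]
  rw [← integral_finsetSum]
  · refine integral_congr_ae (Eventually.of_forall fun x => ?_)
    simp only [Complex.ofReal_sum, Complex.ofReal_mul, Finset.smul_sum]
    refine Finset.sum_congr rfl fun i _ => ?_
    rw [mul_smul_comm]
  · intro i _
    apply Integrable.const_mul
    have h1 : Integrable fun x : ℝ => ((w i x : ℝ) : ℂ) :=
      ((hw i).cont.integrable_of_hasCompactSupport (hw i).cs).ofReal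
    exact (Real.fourierIntegral_convergent_iff ξ).2 h1

lemma J_two {w : ℝ → ℝ} : ∫ ξ : ℝ, |ξ| * ‖hat w ξ‖ ^ 2 = 2 * J w := by
  unfold J
  rw [← integral_comp_abs (f := fun ξ => ξ * ‖hat w ξ‖ ^ 2)]
  refine integral_congr_ae (Eventually.of_forall fun ξ => ?_)
  simp only
  rcases abs_cases ξ with h | h
  · rw [h.1]
  · rw [h.1, hat_neg, RCLike.norm_conj]

lemma hat_int {u v : ℝ → ℝ} (hu : Cc u) (hv : Cc v) :
    Integrable fun ξ : ℝ => |ξ| * (hat u ξ * conj (hat v ξ)).re := by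
  obtain ⟨-, C1, hC1, h1⟩ := J_int hu
  obtain ⟨-, C2, hC2, h2⟩ := J_int hv
  have c1 := hat_cont hu.sm hu.cs
  have c2 := hat_cont hv.sm hv.cs
  refine (integrable_inv_one_add_sq.const_mul (C1 + C2)).mono' ?_ (Eventually.of_forall fun ξ => ?_)
  · apply Continuous.aestronglyMeasurable
    exact continuous_abs.mul (Complex.continuous_re.comp (c1.mul (Complex.continuous_conj.comp c2)))
  · have g1 := h1 |ξ| (abs_nonneg _)
    have g2 := h2 |ξ| (abs_nonneg _)
    have e : ∀ (f : ℝ → ℝ), ‖hat f |ξ|‖ = ‖hat f ξ‖ := by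
      intro f
      rcases abs_cases ξ with h | h
      · rw [h.1]
      · rw [h.1, hat_neg, RCLike.norm_conj]
    rw [e, sq_abs] at g1 g2
    rw [Real.norm_eq_abs, abs_mul, abs_abs]
    have g3 : |(hat u ξ * conj (hat v ξ)).re| ≤ ‖hat u ξ‖ * ‖hat v ξ‖ := by
      refine (Complex.abs_re_le_norm _).trans ?_
      rw [norm_mul, RCLike.norm_conj]
    have g4 : ‖hat u ξ‖ * ‖hat v ξ‖ ≤ ‖hat u ξ‖ ^ 2 + ‖hat v ξ‖ ^ 2 := by
      nlinarith [sq_nonneg (‖hat u ξ‖ - ‖hat v ξ‖), norm_nonneg (hat u ξ), norm_nonneg (hat v ξ)]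
    calc |ξ| * |(hat u ξ * conj (hat v ξ)).re| ≤ |ξ| * (‖hat u ξ‖ ^ 2 + ‖hat v ξ‖ ^ 2) :=
          mul_le_mul_of_nonneg_left (g3.trans g4) (abs_nonneg _)
      _ ≤ (C1 + C2) * (1 + ξ ^ 2)⁻¹ := by linarith

lemma Cov_form {d : ℕ} {w : Fin d → ℝ → ℝ} (hw : ∀ i, Cc (w i)) (t : Fin d → ℝ) :
    t ⬝ᵥ Cov w *ᵥ t = ∫ ξ : ℝ, |ξ| * ‖hat (fun x => ∑ i, t i * w i x) ξ‖ ^ 2 := by
  have h1 : t ⬝ᵥ Cov w *ᵥ t = ∑ i, ∑ j, t i * t j * Cov w i j := by
    simp only [dotProduct, Matrix.mulVec]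
    refine Finset.sum_congr rfl fun i _ => ?_
    rw [Finset.mul_sum]
    refine Finset.sum_congr rfl fun j _ => ?_
    ring
  have h2 : ∀ i j, t i * t j * Cov w i j = ∫ ξ : ℝ, t i * t j * (|ξ| * (hat (w i) ξ * conj (hat (w j) ξ)).re) := by
    intro i j
    rw [integral_const_mul]
    rfl
  rw [h1]
  simp_rw [h2]
  rw [Finset.sum_congr rfl fun i _ => (integral_finsetSum _ fun j _ => (hat_int (hw i) (hw j)).const_mul _).symm]
  rw [← integral_finsetSum _ fun i _ => integrable_finsetSum _ fun j _ => (hat_int (hw i) (hw j)).const_mul _]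
  refine integral_congr_ae (Eventually.of_forall fun ξ => ?_)
  simp only
  rw [hat_sum hw, ← Complex.normSq_eq_norm_sq]
  have h3 : ((Complex.normSq (∑ i, (t i : ℂ) * hat (w i) ξ) : ℝ) : ℂ) =
      ∑ i, ∑ j, ((t i * t j : ℝ) : ℂ) * (hat (w i) ξ * conj (hat (w j) ξ)) := by
    rw [Complex.normSq_eq_conj_mul_self, mul_comm, map_sum, Finset.sum_mul_sum]
    refine Finset.sum_congr rfl fun i _ => Finset.sum_congr rfl fun j _ => ?_
    rw [map_mul, Complex.conj_ofReal]
    push_cast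
    ring
  have h4 : Complex.normSq (∑ i, (t i : ℂ) * hat (w i) ξ) =
      ∑ i, ∑ j, (t i * t j) * (hat (w i) ξ * conj (hat (w j) ξ)).re := by
    have := congrArg Complex.re h3
    rw [Complex.ofReal_re] at this
    rw [this, Complex.re_sum]
    refine Finset.sum_congr rfl fun i _ => ?_
    rw [Complex.re_sum]
    refine Finset.sum_congr rfl fun j _ => ?_
    rw [Complex.re_ofReal_mul]
  rw [h4, Finset.mul_sum]
  refine Finset.sum_congr rfl fun i _ => ?_
  rw [Finset.mul_sum]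
  refine Finset.sum_congr rfl fun j _ => ?_
  ring

lemma Cov_psd {d : ℕ} {w : Fin d → ℝ → ℝ} (hw : ∀ i, Cc (w i)) : (Cov w).PosSemidef := by
  refine Matrix.PosSemidef.of_dotProduct_mulVec_nonneg ?_ fun t => ?_
  · ext i j
    rw [Matrix.conjTranspose_apply, star_trivial]
    unfold Cov
    refine integral_congr_ae (Eventually.of_forall fun ξ => ?_)
    simp only
    congr 1
    rw [← Complex.conj_re, map_mul, Complex.conj_conj, mul_comm]
  · rw [star_trivial, Cov_form hw]
    exact integral_nonneg fun ξ => by positivity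

/-- the empirical measure of `x 1, ..., x N` -/
noncomputable def empE {E : Type*} [MeasurableSpace E] (N : ℕ) (x : ℕ → E) : Measure E :=
  ∑ n ∈ Finset.Icc 1 N, ((N : ℝ≥0∞)⁻¹ • Measure.dirac (x n))

lemma empE_prob {E : Type*} [MeasurableSpace E] {N : ℕ} (hN : 1 ≤ N) (x : ℕ → E) :
    IsProbabilityMeasure (empE N x) := by
  refine ⟨?_⟩
  unfold empE
  rw [Measure.finsetSum_apply]
  simp only [Measure.smul_apply, measure_univ, smul_eq_mul, mul_one, Finset.sum_const,
    Nat.card_Icc, Nat.add_sub_cancel, nsmul_eq_mul]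
  exact ENNReal.mul_inv_cancel (by exact_mod_cast (by omega : N ≠ 0)) (ENNReal.natCast_ne_top N)

lemma empE_int {E F : Type*} [MeasurableSpace E] [MeasurableSingletonClass E] [NormedAddCommGroup F]
    [NormedSpace ℝ F] [CompleteSpace F] (N : ℕ) (x : ℕ → E) (f : E → F) :
    ∫ y, f y ∂(empE N x) = ((N : ℝ)⁻¹) • ∑ n ∈ Finset.Icc 1 N, f (x n) := by
  unfold empE
  rcases Nat.eq_zero_or_pos N with h | h
  · subst h; simp
  rw [integral_finsetSum_measure]
  · rw [Finset.smul_sum]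
    refine Finset.sum_congr rfl fun n _ => ?_
    rw [integral_smul_measure, integral_dirac]
    simp
  · intro n _
    refine Integrable.smul_measure ?_ (by simp; omega)
    exact integrable_dirac (by simp)

lemma Gs_sum {d : ℕ} (w : Fin d → ℝ → ℝ) (t : Fin d → ℝ) (h : ℝ) (K n : ℕ) :
    Gs (fun x => ∑ i, t i * w i x) h K n = ∑ i, t i * Gs (w i) h K n := by
  unfold Gs
  simp only [Finset.mul_sum, Finset.sum_mul]
  rw [Finset.sum_comm]
  refine Finset.sum_congr rfl fun i _ => Finset.sum_congr rfl fun k _ => ?_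
  ring

/-- **Theorem.** On the Riemann hypothesis, for all test functions `w_1, ..., w_d ∈ C_c^∞((0, ∞))`,
the vector of the linear statistics `G_h(w_i, n) = ∑_{k ≥ 0} w_i(k/h) (δ_{n+k} - 1)` of the gaps, with
`n` uniformly distributed in `{1, ..., N}`, converges in law, as `h → ∞`, to the centred Gaussian
vector with the covariances `∫ |ξ| Re(ŵ_i(ξ) conj(ŵ_j(ξ))) dξ`, uniformly in all `N` with
`h (log h)² ≤ B log N`. -/
theorem result (RH : RiemannHypothesis) {d : ℕ} (w : Fin d → ℝ → ℝ) (hw : ∀ i, ContDiff ℝ ∞ (w i))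
    (hc : ∀ i, HasCompactSupport (w i)) (hs : ∀ i, tsupport (w i) ⊆ Ioi 0)
    (f : EuclideanSpace ℝ (Fin d) → ℝ) (hf : Continuous f) (hb : ∃ C : ℝ, ∀ x, |f x| ≤ C)
    (B : ℝ) (ε : ℝ) (hε : 0 < ε) :
    ∃ h₀ : ℝ, ∀ h : ℝ, h₀ ≤ h → ∀ N : ℕ, 1 ≤ N → h * Real.log h ^ 2 ≤ B * Real.log N →
      |(1 / N : ℝ) * ∑ n ∈ Finset.Icc 1 N, f (WithLp.toLp 2 fun i => G h (w i) n) -
        ∫ x, f x ∂(multivariateGaussian 0 (Cov w))| ≤ ε := by
  obtain ⟨R, hR, hT⟩ := common w hw hc hs
  by_contra hcon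
  push Not at hcon
  -- a sequence of counterexamples
  have h1 : ∀ m : ℕ, ∃ h : ℝ, (m : ℝ) + 3 ≤ h ∧ ∃ N : ℕ, 1 ≤ N ∧ h * Real.log h ^ 2 ≤ B * Real.log N ∧
      ε < |(1 / N : ℝ) * ∑ n ∈ Finset.Icc 1 N, f (WithLp.toLp 2 fun i => G h (w i) n) -
        ∫ x, f x ∂(multivariateGaussian 0 (Cov w))| := by
    intro m
    obtain ⟨h, h2, N, h3, h4, h5⟩ := hcon (m + 3)
    exact ⟨h, h2, N, h3, h4, h5⟩
  choose h hh N hN hcd hlt using h1
  have hhp : ∀ m, 0 < h m := fun m => by
    have := hh m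
    have : (0 : ℝ) ≤ m := Nat.cast_nonneg m
    linarith
  obtain ⟨x, hx⟩ : ∃ x : ℕ → ℕ → EuclideanSpace ℝ (Fin d), x = fun m n =>
    WithLp.toLp 2 fun i => G (h m) (w i) n := ⟨_, rfl⟩
  let μ : ℕ → ProbabilityMeasure (EuclideanSpace ℝ (Fin d)) := fun m => ⟨empE (N m) (x m), empE_prob (hN m) (x m)⟩
  let μ₀ : ProbabilityMeasure (EuclideanSpace ℝ (Fin d)) := ⟨multivariateGaussian 0 (Cov w), inferInstance⟩
  have hinner : ∀ m n (t : EuclideanSpace ℝ (Fin d)), inner ℝ (x m n) t =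
      Gs (fun y => ∑ i, t i * w i y) (h m) ⌈2 * (R * h m)⌉₊ n := by
    intro m n t
    rw [Gs_sum, hx, PiLp.inner_apply]
    refine Finset.sum_congr rfl fun i _ => ?_
    simp only [RCLike.inner_apply, conj_trivial]
    rw [G_eq (hT i) (hhp m)]
  have hwk : Tendsto μ atTop (𝓝 μ₀) := by
    rw [ProbabilityMeasure.tendsto_iff_tendsto_charFun]
    intro t
    have hv : Ts R fun y => ∑ i, t i * w i y := Ts_sum hR hT t
    have h2 : charFun (μ₀ : Measure (EuclideanSpace ℝ (Fin d))) t =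
        (Real.exp (-J fun y => ∑ i, t i * w i y) : ℂ) := by
      show charFun (multivariateGaussian 0 (Cov w)) t = _
      rw [charFun_multivariateGaussian (Cov_psd fun i => (hT i).cc), inner_zero_right,
        Cov_form (fun i => (hT i).cc), J_two]
      push_cast
      congr 1
      ring
    rw [h2, Metric.tendsto_atTop]
    intro ε' hε'
    obtain ⟨h0, -, hall⟩ := allG RH hv (max B 1) (le_max_right _ _) (ε' / 2) (by positivity)
    obtain ⟨m0, hm0⟩ := exists_nat_ge h0
    refine ⟨m0, fun m hm => ?_⟩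
    have hNm : (0 : ℝ) < N m := by exact_mod_cast hN m
    have hNm1 : (1 : ℝ) ≤ N m := by exact_mod_cast hN m
    have hm' : (m0 : ℝ) ≤ m := by exact_mod_cast hm
    have h3 := hall (h m) (by linarith [hh m]) (N m) (hN m) ((hcd m).trans
      (mul_le_mul_of_nonneg_right (le_max_left _ _) (Real.log_nonneg hNm1)))
    have h4 : charFun (μ m : Measure (EuclideanSpace ℝ (Fin d))) t = ((N m : ℝ)⁻¹) • ∑ n ∈ Finset.Icc 1 (N m),
        Complex.exp (Complex.I * (Gs (fun y => ∑ i, t i * w i y) (h m) ⌈2 * (R * h m)⌉₊ n : ℂ)) := by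
      rw [charFun_apply]
      show ∫ y, Complex.exp ((inner ℝ y t : ℝ) * Complex.I) ∂(empE (N m) (x m)) = _
      rw [empE_int]
      congr 1
      refine Finset.sum_congr rfl fun n _ => ?_
      rw [hinner, mul_comm]
    rw [h4, dist_eq_norm]
    obtain ⟨E, hE⟩ : ∃ E : ℂ, E = (Real.exp (-J fun y => ∑ i, t i * w i y) : ℂ) := ⟨_, rfl⟩
    rw [← hE] at h3 ⊢
    rw [Finset.sum_sub_distrib, Finset.sum_const, Nat.card_Icc, Nat.add_sub_cancel, nsmul_eq_mul] at h3
    obtain ⟨S, hS⟩ : ∃ S : ℂ, S = ∑ n ∈ Finset.Icc 1 (N m),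
      Complex.exp (Complex.I * (Gs (fun y => ∑ i, t i * w i y) (h m) ⌈2 * (R * h m)⌉₊ n : ℂ)) := ⟨_, rfl⟩
    rw [← hS] at h3 ⊢
    have h5 : ((N m : ℝ)⁻¹) • S - E = ((N m : ℝ)⁻¹) • (S - (N m : ℂ) * E) := by
      rw [smul_sub]
      congr 1
      rw [Complex.real_smul]
      push_cast
      have : (N m : ℂ) ≠ 0 := by exact_mod_cast hNm.ne'
      field_simp
    rw [h5, norm_smul, Real.norm_of_nonneg (by positivity)]
    calc (N m : ℝ)⁻¹ * ‖S - (N m : ℂ) * E‖ ≤ (N m : ℝ)⁻¹ * (ε' / 2 * N m) := by gcongr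
      _ = ε' / 2 := by field_simp
      _ < ε' := by linarith
  rw [ProbabilityMeasure.tendsto_iff_forall_integral_tendsto] at hwk
  obtain ⟨C, hC⟩ := hb
  have h2 := hwk (BoundedContinuousFunction.ofNormedAddCommGroup f hf C fun y => by
    rw [Real.norm_eq_abs]; exact hC y)
  rw [Metric.tendsto_atTop] at h2
  obtain ⟨m, hm⟩ := h2 ε hε
  have h3 := hm m le_rfl
  rw [Real.dist_eq] at h3
  have e1 : ∫ y, (BoundedContinuousFunction.ofNormedAddCommGroup f hf C fun y => by
      rw [Real.norm_eq_abs]; exact hC y) y ∂(μ m : Measure (EuclideanSpace ℝ (Fin d))) =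
      (1 / N m : ℝ) * ∑ n ∈ Finset.Icc 1 (N m), f (WithLp.toLp 2 fun i => G (h m) (w i) n) := by
    show ∫ y, f y ∂(empE (N m) (x m)) = _
    rw [empE_int, smul_eq_mul, one_div, hx]
  rw [e1] at h3
  have h4 := hlt m
  exact absurd h3 (not_lt.2 h4.le)

end Pool.Agent.Results.MP_7eacff_nt.MesoscopicGaussian
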