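import Pool.Agent.K6.H57.PN.Zeta

/-!
# The power spectrum of the unfolded gaps of the zeta zeros at low frequencies

Assume the Riemann hypothesis.  Let `δ_n` be the unfolded gaps and let

`S_N(t) = (1/N) |∑_{n ≤ N} (δ_n - 1) exp(2π i n t)|²`

be the periodogram of the centred gaps.  We prove that the spectrum of the gaps is asymptotic to the
frequency at low frequencies,

`∫_0^θ S_N(t) dt ~ θ²/2`   (first `N → ∞`, then `θ → 0`),

as the GUE hypothesis predicts (for independent gaps the integral would be of size `θ`).  In other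
words the sequence `∑_{j ≤ n} (δ_j - 1)` of the fluctuations of the unfolded ordinates is a
`1/f` noise.

Idea of the proof.  For a test function `Φ` the integral of `Φ(h t) S_N(t)` is a sum over the
autocovariances of the gaps.  Two summations by parts turn it into a sum over the variances of the
sums `S_k` of `k` consecutive gaps; these variances are the second order terms in the Taylor
expansions at `k` of the averages of `g(S_k)`, `g` a scaled test function, and the sum over `k` of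
these averages is Montgomery's pair sum with a test function of small band, which is known on the
Riemann hypothesis.  The remainders are controlled by bounds for the moments of `S_k - k`.
-/

set_option autoImplicit false

open Filter Topology MeasureTheory Set

namespace Pool.Agent.Results.MP_7eacff_nt.PowerSpectrum

open Pool.Agent.K6.H57.PN

/-- multiplicity of `s` as a zero of the Riemann zeta function (order of vanishing at `s`) -/
noncomputable def zmult (s : ℂ) : ℕ := analyticOrderNatAt riemannZeta s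

/-- the number of nontrivial zeros of `ζ` with ordinate in `(0, t]`, with multiplicity -/
noncomputable def NZ (t : ℝ) : ℕ :=
  ∑ᶠ s ∈ {s : ℂ | riemannZeta s = 0 ∧ 0 < s.re ∧ s.re < 1 ∧ 0 < s.im ∧ s.im ≤ t}, zmult s

/-- for `n ≥ 1`: the `n`-th positive ordinate `γ n` of a nontrivial zero of `ζ`, the ordinates being
listed in nondecreasing order and repeated according to multiplicity -/
noncomputable def γ (n : ℕ) : ℝ := sInf {t : ℝ | n ≤ NZ t}

/-- the unfolded consecutive gaps `δ_n = (γ_{n+1} - γ_n) / 2π · log (γ_n / 2π)` -/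
noncomputable def δ (n : ℕ) : ℝ := (γ (n + 1) - γ n) / (2 * Real.pi) * Real.log (γ n / (2 * Real.pi))

/-- the periodogram of the centred gaps: `S_N(t) = (1/N) |∑_{n ≤ N} (δ_n - 1) exp(2π i n t)|²` -/
noncomputable def S (N : ℕ) (t : ℝ) : ℝ :=
  (1 / N : ℝ) * ‖∑ n ∈ Finset.Icc 1 N,
    ((δ n - 1 : ℝ) : ℂ) * Complex.exp (2 * Real.pi * Complex.I * n * t)‖ ^ 2

lemma rhs_of (hRH : RiemannHypothesis) : SP.RHs := by
  intro s h0 h1 hz
  apply hRH s hz
  · rintro ⟨n, hn⟩
    rw [hn] at h0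
    simp at h0
    have : (0 : ℝ) ≤ n := Nat.cast_nonneg n
    linarith
  · intro h
    rw [h] at h1
    simp at h1

lemma δ_eq (n : ℕ) : δ n - 1 = ac n := rfl

lemma S_eq (N : ℕ) (t : ℝ) : S N t = (1 / N : ℝ) * ∑ i ∈ Finset.Icc 1 N, ∑ j ∈ Finset.Icc 1 N,
    ac i * ac j * Real.cos (2 * Real.pi * t * ((i : ℝ) - j)) := by
  unfold S
  congr 1
  have h1 : ∑ n ∈ Finset.Icc 1 N, ((δ n - 1 : ℝ) : ℂ) * Complex.exp (2 * Real.pi * Complex.I * n * t)
      = ((∑ n ∈ Finset.Icc 1 N, ac n * Real.cos (2 * Real.pi * t * n) : ℝ) : ℂ) +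
        ((∑ n ∈ Finset.Icc 1 N, ac n * Real.sin (2 * Real.pi * t * n) : ℝ) : ℂ) * Complex.I := by
    push_cast
    rw [Finset.sum_mul, ← Finset.sum_add_distrib]
    refine Finset.sum_congr rfl fun n _ => ?_
    have e : (2 * Real.pi * Complex.I * n * t : ℂ) = (2 * Real.pi * t * n : ℂ) * Complex.I := by ring
    have e2 : ((δ n : ℝ) : ℂ) - 1 = (ac n : ℂ) := by
      rw [← δ_eq]; push_cast; rfl
    rw [e, Complex.exp_mul_I, e2]
    ring
  rw [h1, Complex.sq_norm, Complex.normSq_add_mul_I, sq, sq, Finset.sum_mul_sum, Finset.sum_mul_sum,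
    ← Finset.sum_add_distrib]
  refine Finset.sum_congr rfl fun i _ => ?_
  rw [← Finset.sum_add_distrib]
  refine Finset.sum_congr rfl fun j _ => ?_
  rw [mul_sub, Real.cos_sub]
  ring

lemma S_nonneg (N : ℕ) (t : ℝ) : 0 ≤ S N t := by
  unfold S; positivity

lemma S_cont (N : ℕ) : Continuous (S N) := by
  unfold S; fun_prop

lemma S_even (N : ℕ) (t : ℝ) : S N (-t) = S N t := by
  rw [S_eq, S_eq]
  congr 1
  refine Finset.sum_congr rfl fun i _ => Finset.sum_congr rfl fun j _ => ?_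
  have : 2 * Real.pi * -t * ((i : ℝ) - j) = -(2 * Real.pi * t * ((i : ℝ) - j)) := by ring
  rw [this, Real.cos_neg]

lemma S_test {B : ℝ} {Φ : ℝ → ℝ} (hΦ : Tf B Φ) {h : ℝ} (hh : 0 < h) (N : ℕ) :
    ∫ t, Φ (h * t) * S N t = QF ac Φ h N / h ^ 2 := by
  simp_rw [S_eq]
  have hsc := sc_tf hΦ hh
  have h1 : ∀ t, Φ (h * t) * ((1 / N : ℝ) * ∑ i ∈ Finset.Icc 1 N, ∑ j ∈ Finset.Icc 1 N,
      ac i * ac j * Real.cos (2 * Real.pi * t * ((i : ℝ) - j))) =
      ∑ i ∈ Finset.Icc 1 N, ∑ j ∈ Finset.Icc 1 N, (1 / N : ℝ) * (ac i * ac j) / h ^ 2 *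
        (sc h Φ t * Real.cos (2 * Real.pi * t * ((i : ℝ) - j))) := by
    intro t
    rw [Finset.mul_sum, Finset.mul_sum]
    refine Finset.sum_congr rfl fun i _ => ?_
    rw [Finset.mul_sum, Finset.mul_sum]
    refine Finset.sum_congr rfl fun j _ => ?_
    unfold sc
    field_simp
  simp_rw [h1]
  have hint : ∀ x : ℝ, Integrable fun t => sc h Φ t * Real.cos (2 * Real.pi * t * x) :=
    fun x => hsc.int_mul (by fun_prop)
  rw [integral_finsetSum _ fun i _ => integrable_finsetSum _ fun j _ => (hint _).const_mul _]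
  simp_rw [integral_finsetSum (Finset.Icc 1 N) fun j _ => (hint _).const_mul _, integral_const_mul]
  unfold QF
  rw [Finset.mul_sum, Finset.sum_div]
  refine Finset.sum_congr rfl fun i _ => ?_
  rw [Finset.mul_sum, Finset.sum_div]
  refine Finset.sum_congr rfl fun j _ => ?_
  rw [← gs_fl hh]
  unfold Pool.Agent.Y749.Rig.fl
  ring

/-- the smooth bump functions -/
lemma bump (r R : ℝ) (hr : 0 < r) (hR : r < R) : ∃ Φ : ℝ → ℝ, Tf R Φ ∧ (∀ x, 0 ≤ Φ x) ∧
    (∀ x, Φ x ≤ 1) ∧ ∀ x, |x| ≤ r → Φ x = 1 := by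
  obtain ⟨f, hf1, hf2⟩ : ∃ f : ContDiffBump (0 : ℝ), f.rIn = r ∧ f.rOut = R :=
    ⟨⟨r, R, hr, hR⟩, rfl, rfl⟩
  refine ⟨f, ⟨hr.trans hR, f.contDiff, fun x => f.neg x, fun x hx => ?_⟩, fun x => f.nonneg,
    fun x => f.le_one, fun x hx => ?_⟩
  · apply f.zero_of_le_dist
    rw [hf2, Real.dist_eq, sub_zero]
    exact hx
  · apply f.one_of_mem_closedBall
    rw [hf1, Metric.mem_closedBall, Real.dist_eq, sub_zero]
    exact hx

lemma int_abs (r : ℝ) (hr : 0 ≤ r) : ∫ x in Icc (-r) r, |x| = r ^ 2 := by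
  rw [integral_Icc_eq_integral_Ioc, ← intervalIntegral.integral_of_le (by linarith)]
  have h1 : Continuous fun x : ℝ => |x| := continuous_abs
  rw [← intervalIntegral.integral_add_adjacent_intervals (a := -r) (b := 0) (c := r)
    (h1.intervalIntegrable _ _) (h1.intervalIntegrable _ _)]
  have e1 : ∫ x in (-r)..0, |x| = ∫ x in (-r)..0, -x := by
    refine intervalIntegral.integral_congr fun x hx => ?_
    rw [uIcc_of_le (by linarith)] at hx
    exact abs_of_nonpos hx.2
  have e2 : ∫ x in (0 : ℝ)..r, |x| = ∫ x in (0 : ℝ)..r, x := by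
    refine intervalIntegral.integral_congr fun x hx => ?_
    rw [uIcc_of_le hr] at hx
    exact abs_of_nonneg hx.1
  rw [e1, e2, intervalIntegral.integral_neg, integral_id, integral_id]
  ring

lemma J_le {R : ℝ} {Φ : ℝ → ℝ} (hΦ : Tf R Φ) (h1 : ∀ x, Φ x ≤ 1) : J Φ ≤ R ^ 2 := by
  have hR := hΦ.pos
  rw [← int_abs R hR.le]
  unfold J
  rw [← integral_indicator measurableSet_Icc]
  refine integral_mono ?_ ?_ fun x => ?_
  · simp_rw [mul_comm]
    exact hΦ.int_mul continuous_abs
  · rw [integrable_indicator_iff measurableSet_Icc]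
    exact continuous_abs.integrableOn_Icc
  · simp only
    by_cases hx : x ∈ Icc (-R) R
    · rw [indicator_of_mem hx]
      exact mul_le_of_le_one_right (abs_nonneg _) (h1 x)
    · rw [indicator_of_notMem hx]
      have : Φ x = 0 := by
        apply hΦ.supp
        by_contra hcon
        push Not at hcon
        exact hx ⟨(abs_lt.1 hcon).1.le, (abs_lt.1 hcon).2.le⟩
      rw [this, mul_zero]

lemma J_ge {r R : ℝ} (hr : 0 ≤ r) {Φ : ℝ → ℝ} (hΦ : Tf R Φ) (h0 : ∀ x, 0 ≤ Φ x)
    (h1 : ∀ x, |x| ≤ r → Φ x = 1) : r ^ 2 ≤ J Φ := by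
  rw [← int_abs r hr]
  unfold J
  rw [← integral_indicator measurableSet_Icc]
  refine integral_mono ?_ ?_ fun x => ?_
  · rw [integrable_indicator_iff measurableSet_Icc]
    exact continuous_abs.integrableOn_Icc
  · simp_rw [mul_comm]
    exact hΦ.int_mul continuous_abs
  · simp only
    by_cases hx : x ∈ Icc (-r) r
    · rw [indicator_of_mem hx, h1 x (abs_le.2 hx), mul_one]
    · rw [indicator_of_notMem hx]
      exact mul_nonneg (abs_nonneg _) (h0 x)

lemma S_int {R : ℝ} {Φ : ℝ → ℝ} (hΦ : Tf R Φ) {h : ℝ} (hh : 0 < h) (N : ℕ) :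
    Integrable fun t => Φ (h * t) * S N t := by
  have h1 : ∀ t, Φ (h * t) * S N t = sc h Φ t * (S N t / h ^ 2) := by
    intro t; unfold sc; field_simp
  simp_rw [h1]
  exact (sc_tf hΦ hh).int_mul ((S_cont N).div_const _)

lemma sym_int (N : ℕ) (θ : ℝ) (hθ : 0 ≤ θ) :
    ∫ t in Icc (-θ) θ, S N t = 2 * ∫ t in (0 : ℝ)..θ, S N t := by
  have hc := S_cont N
  rw [integral_Icc_eq_integral_Ioc, ← intervalIntegral.integral_of_le (by linarith),
    ← intervalIntegral.integral_add_adjacent_intervals (a := -θ) (b := 0) (c := θ)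
      (hc.intervalIntegrable _ _) (hc.intervalIntegrable _ _)]
  have e1 : ∫ t in (-θ)..0, S N t = ∫ t in (0 : ℝ)..θ, S N t := by
    have := intervalIntegral.integral_comp_neg (a := 0) (b := θ) (f := fun t : ℝ => S N t)
    simp only [S_even, neg_zero] at this
    exact this.symm
  rw [e1]
  ring

/-- **Theorem.** On the Riemann hypothesis the power spectrum `S_N(t)` of the centred unfolded gaps
satisfies `∫_0^θ S_N(t) dt ~ θ²/2`, as `N → ∞` and then `θ → 0`: for every `ε > 0` there is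
`θ₀ > 0` such that for every `0 < θ ≤ θ₀` and all large `N` the quotient of the integral and `θ²`
is within `ε` of `1/2`. -/
theorem result (RH : RiemannHypothesis) : ∀ ε : ℝ, 0 < ε → ∃ θ₀ : ℝ, 0 < θ₀ ∧
    ∀ θ : ℝ, 0 < θ → θ ≤ θ₀ → ∀ᶠ N : ℕ in atTop,
      |(∫ t in (0 : ℝ)..θ, S N t) / θ ^ 2 - 1 / 2| ≤ ε := by
  intro ε hε
  have hR := rhs_of RH
  obtain ⟨η, hη⟩ : ∃ η : ℝ, η = min (1 / 2) (ε / 4) := ⟨_, rfl⟩
  have hη0 : 0 < η := by rw [hη]; exact lt_min (by norm_num) (by positivity)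
  have hη1 : η ≤ 1 / 2 := by rw [hη]; exact min_le_left _ _
  have hη2 : η ≤ ε / 4 := by rw [hη]; exact min_le_right _ _
  obtain ⟨Φ1, t1, n1, l1, o1⟩ := bump 1 (1 + η) one_pos (by linarith)
  obtain ⟨Φ2, t2, n2, l2, o2⟩ := bump (1 - η) 1 (by linarith) (by linarith)
  have q1 := qf_zeta RH hR t1 (show 0 < ε / 4 by positivity)
  have q2 := qf_zeta RH hR t2 (show 0 < ε / 4 by positivity)
  obtain ⟨h0, hh0⟩ := eventually_atTop.1 (q1.and q2)
  refine ⟨1 / (|h0| + 1), by positivity, fun θ hθ hθ1 => ?_⟩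
  obtain ⟨h, hh⟩ : ∃ h : ℝ, h = 1 / θ := ⟨_, rfl⟩
  have hpos : 0 < h := by rw [hh]; positivity
  have hge : h0 ≤ h := by
    rw [le_div_iff₀ (by positivity)] at hθ1
    rw [hh, le_div_iff₀ hθ]
    have : h0 * θ ≤ (|h0| + 1) * θ := by
      apply mul_le_mul_of_nonneg_right _ hθ.le
      linarith [le_abs_self h0]
    linarith
  obtain ⟨e1, e2⟩ := hh0 h hge
  filter_upwards [e1, e2] with N g1 g2
  have hinv : θ = 1 / h := by rw [hh]; field_simp
  -- upper bound
  have u1 : ∫ t in Icc (-θ) θ, S N t ≤ ∫ t, Φ1 (h * t) * S N t := by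
    rw [← integral_indicator measurableSet_Icc]
    refine integral_mono ?_ (S_int t1 hpos N) fun t => ?_
    · rw [integrable_indicator_iff measurableSet_Icc]
      exact (S_cont N).integrableOn_Icc
    · simp only
      by_cases ht : t ∈ Icc (-θ) θ
      · rw [indicator_of_mem ht, o1 (h * t), one_mul]
        rw [abs_mul, abs_of_pos hpos, hh, one_div, inv_mul_le_iff₀ hθ, mul_one]
        exact abs_le.2 ht
      · rw [indicator_of_notMem ht]
        exact mul_nonneg (n1 _) (S_nonneg N t)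
  have u2 : ∫ t, Φ2 (h * t) * S N t ≤ ∫ t in Icc (-θ) θ, S N t := by
    rw [← integral_indicator measurableSet_Icc]
    refine integral_mono (S_int t2 hpos N) ?_ fun t => ?_
    · rw [integrable_indicator_iff measurableSet_Icc]
      exact (S_cont N).integrableOn_Icc
    · simp only
      by_cases ht : t ∈ Icc (-θ) θ
      · rw [indicator_of_mem ht]
        exact mul_le_of_le_one_left (S_nonneg N t) (l2 _)
      · rw [indicator_of_notMem ht, t2.supp (h * t), zero_mul]
        rw [abs_mul, abs_of_pos hpos, hh, one_div, ← div_eq_inv_mul, le_div_iff₀ hθ, one_mul]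
        by_contra hcon
        push Not at hcon
        exact ht ⟨(abs_lt.1 hcon).1.le, (abs_lt.1 hcon).2.le⟩
  rw [sym_int N θ hθ.le, S_test t1 hpos] at u1
  rw [sym_int N θ hθ.le, S_test t2 hpos] at u2
  have j1 := J_le t1 l1
  have j2 := J_ge (show 0 ≤ 1 - η by linarith) t2 n2 o2
  rw [abs_le] at g1 g2
  have hth : 0 < θ ^ 2 := by positivity
  have k1 : (∫ t in (0 : ℝ)..θ, S N t) ≤ (1 / 2 + ε) * θ ^ 2 := by
    have : QF ac Φ1 h N / h ^ 2 = QF ac Φ1 h N * θ ^ 2 := by rw [hinv]; field_simp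
    rw [this] at u1
    have : QF ac Φ1 h N ≤ 1 + 2 * ε := by nlinarith
    nlinarith
  have k2 : (1 / 2 - ε) * θ ^ 2 ≤ ∫ t in (0 : ℝ)..θ, S N t := by
    have : QF ac Φ2 h N / h ^ 2 = QF ac Φ2 h N * θ ^ 2 := by rw [hinv]; field_simp
    rw [this] at u2
    have : 1 - 2 * ε ≤ QF ac Φ2 h N := by nlinarith
    nlinarith
  rw [abs_le]
  constructor
  · rw [le_sub_iff_add_le, le_div_iff₀ hth]
    linarith
  · rw [sub_le_iff_le_add, div_le_iff₀ hth]
    linarith

end Pool.Agent.Results.MP_7eacff_nt.PowerSpectrum
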