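import Pool.Agent.K6.H15.TP.Fe

/-!
# The thick points and the freezing transition of the discrepancies of the zeros

Assume the Riemann hypothesis.  Let `δ_n` be the unfolded gaps between consecutive zeros of the
Riemann zeta function, and let

`D_r(n) = (δ_n + ... + δ_{n+r-1}) - r`

be the discrepancy of the block of `r` gaps that starts at the `n`-th zero.  We prove that for almost
all `n` the discrepancies `D_r(n)`, `r ≤ R`, have the spectrum and the free energy of a
logarithmically correlated Gaussian field: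

* for all `a ≥ 0` (an upper bound) and for all `0 ≤ a < 1` (both bounds)
  `#{r ≤ R : D_r(n) ≥ (a/π) log R} = R^(1 - a² + o(1))`,
  `#{r ≤ R : D_r(n) ≤ -(a/π) log R} = R^(1 - a² + o(1))`; in particular the maximum of `± D_r(n)` is
  `(1/π + o(1)) log R`;
* for all real `β`
  `∑_{r ≤ R} exp (β D_r(n)) = R^(1 + (β/2π)² + o(1))` when `|β| ≤ 2π`, and `R^(|β|/π + o(1))` when
  `|β| ≥ 2π`: the free energy freezes at `|β| = 2π`.

This is meant in density: for every `ε > 0` and `B`, every `R ≥ R₀` and every `N ≥ N₀(R)` both hold for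
at least `(1 - ε) N` of the indices `n ≤ N`, for all `a`, and all `β` in `[-B, B]`, at the same time.
These are the laws of the sine process, which the GUE hypothesis predicts; if the gaps were
independent (with finite variance), `|D_r(n)|` would have the size `√R` for most `r ≤ R`.

Idea of the proof.  The discrepancies are compared with a multiscale field `Z_u`, `u ≤ m`, of
Dirichlet polynomials over the primes, with Gaussian exponential moments and logarithmic covariances
(the modules `Pool/Agent/K6/H57/MX`, where they give the law of the maximum).  We tilt the measure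
with `exp (2 π a Z_u)`.

* The first moment of the number of points with `Z_u ≥ (a/π) log m` gives the upper bound.
* For the lower bound the tilted weights are restricted to the points at which the field of every
  band is at most the value predicted by the tilt, with a small slack; so restricted, the sum of the
  weights over `u ≤ m` is `(1 + o(1)) m` in mean square, for every `a ≤ 1`, and each weight is at
  most `m^(a² + o(1))`.
* All `a` are treated at the same time with a finite net.  To pass from the uniform points `t` to the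
  zeros, the runs of gaps with a large discrepancy are mapped to the points with a large value of the
  counting function, injectively in one direction and with few preimages in the other.
* The free energy follows from the spectrum.
-/

set_option autoImplicit false

open Filter Topology

namespace Pool.Agent.Results.MP_7eacff_nt.ThickPoints

/-- multiplicity of `s` as a zero of the Riemann zeta function (order of vanishing at `s`) -/
noncomputable def zmult (s : ℂ) : ℕ := analyticOrderNatAt riemannZeta s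

/-- the number of nontrivial zeros of `ζ` with ordinate in `(0, t]`, with multiplicity -/
noncomputable def NZ (t : ℝ) : ℕ :=
  ∑ᶠ s ∈ {s : ℂ | riemannZeta s = 0 ∧ 0 < s.re ∧ s.re < 1 ∧ 0 < s.im ∧ s.im ≤ t}, zmult s

/-- for `n ≥ 1`: the `n`-th positive ordinate `γ n` of a nontrivial zero of `ζ`, the ordinates being
listed in nondecreasing order and repeated according to multiplicity -/
noncomputable def γ (n : ℕ) : ℝ := sInf {t : ℝ | n ≤ NZ t}

/-- the unfolded consecutive gaps `δ_n = (γ_{n+1} - γ_n) / 2π · log (γ_n / 2π)` -/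
noncomputable def δ (n : ℕ) : ℝ := (γ (n + 1) - γ n) / (2 * Real.pi) * Real.log (γ n / (2 * Real.pi))

/-- the discrepancy `(δ_n + ... + δ_{n+r-1}) - r` of the block of `r` gaps starting at the
`n`-th zero -/
noncomputable def D (r n : ℕ) : ℝ := ∑ i ∈ Finset.range r, δ (n + i) - r

/-- the lengths `r ≤ R` for which the discrepancy is at least `(a/π) log R` -/
def High (a : ℝ) (R n : ℕ) : Set ℕ := {r | 1 ≤ r ∧ r ≤ R ∧ a / Real.pi * Real.log R ≤ D r n}

/-- the lengths `r ≤ R` for which the discrepancy is at most `-(a/π) log R` -/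
def Low (a : ℝ) (R n : ℕ) : Set ℕ := {r | 1 ≤ r ∧ r ≤ R ∧ D r n ≤ -(a / Real.pi * Real.log R)}

open Pool.Agent.K6.H15.TP

lemma D_eq (r n : ℕ) : D r n = Pool.Agent.R320.CL.SS r n - r := rfl

lemma high_eq (a : ℝ) (R n : ℕ) : (High a R n).ncard = cS R n 1 (a / Real.pi * Real.log R) := by
  classical
  unfold cS
  rw [← Set.ncard_coe_finset]
  congr 1
  ext r
  simp only [High, Set.mem_ofPred_eq, Finset.coe_filter, Finset.mem_Icc, D_eq, one_mul, and_assoc]

lemma low_eq (a : ℝ) (R n : ℕ) : (Low a R n).ncard = cS R n (-1) (a / Real.pi * Real.log R) := by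
  classical
  unfold cS
  rw [← Set.ncard_coe_finset]
  congr 1
  ext r
  simp only [Low, Set.mem_ofPred_eq, Finset.coe_filter, Finset.mem_Icc, D_eq, and_assoc]
  constructor
  · rintro ⟨h1, h2, h3⟩
    exact ⟨h1, h2, by linarith⟩
  · rintro ⟨h1, h2, h3⟩
    exact ⟨h1, h2, by linarith⟩

/-- the free energy of the discrepancies -/
noncomputable def F (β : ℝ) : ℝ :=
  if |β| ≤ 2 * Real.pi then 1 + (β / (2 * Real.pi)) ^ 2 else |β| / Real.pi

lemma F_eq (β : ℝ) : F β = Fb (|β| / (2 * Real.pi)) := by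
  have hpi := Real.pi_pos
  unfold F Fb
  by_cases h : |β| ≤ 2 * Real.pi
  · rw [if_pos h, if_pos ((div_le_one (by positivity)).2 h), div_pow, div_pow, sq_abs]
  · rw [if_neg h, if_neg fun h' => h ((div_le_one (by positivity)).1 h')]
    field_simp

/-- **Theorem.** On the Riemann hypothesis, for almost all `n` the numbers of `r ≤ R` with
`(δ_n + ... + δ_{n+r-1}) - r ≥ (a/π) log R` and with `(δ_n + ... + δ_{n+r-1}) - r ≤ -(a/π) log R` are
`R^(1 - a² + o(1))`, and `∑_{r ≤ R} exp (β ((δ_n + ... + δ_{n+r-1}) - r)) = R^(F β + o(1))`: for every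
`ε > 0` and `B > 0`, all `R ≥ R₀(ε, B)` and all `N ≥ N₀(ε, B, R)`, for at least `(1 - ε) N` of the
`n ≤ N` both numbers are at most `R^(1 - a² + ε)` for all `a ≥ 0` and at least `R^(1 - a² - ε)` for all
`a ∈ [0, 1 - ε]`, and the sum is between `R^(F β - ε)` and `R^(F β + ε)` for all `β ∈ [-B, B]`. -/
theorem result (RH : RiemannHypothesis) (ε B : ℝ) (hε : 0 < ε) (hB : 0 < B) :
    ∃ R₀ : ℕ, ∀ R ≥ R₀, ∃ N₀ : ℕ, ∀ N ≥ N₀,
      (1 - ε) * N ≤ ({n : ℕ | 1 ≤ n ∧ n ≤ N ∧
        (∀ a : ℝ, 0 ≤ a →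
          (High a R n).ncard ≤ (R : ℝ) ^ (1 - a ^ 2 + ε) ∧
          (Low a R n).ncard ≤ (R : ℝ) ^ (1 - a ^ 2 + ε)) ∧
        (∀ a : ℝ, 0 ≤ a → a ≤ 1 - ε →
          (R : ℝ) ^ (1 - a ^ 2 - ε) ≤ (High a R n).ncard ∧
          (R : ℝ) ^ (1 - a ^ 2 - ε) ≤ (Low a R n).ncard) ∧
        (∀ β : ℝ, |β| ≤ B →
          (R : ℝ) ^ (F β - ε) ≤ ∑ r ∈ Finset.Icc 1 R, Real.exp (β * D r n) ∧
          ∑ r ∈ Finset.Icc 1 R, Real.exp (β * D r n) ≤ (R : ℝ) ^ (F β + ε))}.ncard : ℝ) := by
  classical
  have hpi := Real.pi_pos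
  have hB' : 0 ≤ B / (2 * Real.pi) := by positivity
  obtain ⟨R₀, hR₀⟩ := eventually_atTop.1 (allf RH hε hB')
  refine ⟨max R₀ 1, fun R hR => ?_⟩
  obtain ⟨N₀, hN₀⟩ := eventually_atTop.1 (hR₀ R ((le_max_left _ _).trans hR))
  refine ⟨N₀, fun N hN => ?_⟩
  have hR1 : 1 ≤ R := (le_max_right _ _).trans hR
  have hR0 : (0 : ℝ) < R := by exact_mod_cast hR1
  have h1 := hN₀ N hN
  have h2 : ((Finset.Icc 1 N).filter fun n => Gz ε (B / (2 * Real.pi)) R n).card +
      ((Finset.Icc 1 N).filter fun n => ¬ Gz ε (B / (2 * Real.pi)) R n).card = N := by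
    rw [Finset.card_filter_add_card_filter_not, Nat.card_Icc, Nat.add_sub_cancel]
  have hpow : ∀ x : ℝ, (R : ℝ) ^ x = Real.exp (x * Real.log R) := fun x => by
    rw [Real.rpow_def_of_pos hR0, mul_comm]
  obtain ⟨G, hG⟩ : ∃ G : Set ℕ, G = {n : ℕ | 1 ≤ n ∧ n ≤ N ∧
        (∀ a : ℝ, 0 ≤ a →
          (High a R n).ncard ≤ (R : ℝ) ^ (1 - a ^ 2 + ε) ∧
          (Low a R n).ncard ≤ (R : ℝ) ^ (1 - a ^ 2 + ε)) ∧
        (∀ a : ℝ, 0 ≤ a → a ≤ 1 - ε →
          (R : ℝ) ^ (1 - a ^ 2 - ε) ≤ (High a R n).ncard ∧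
          (R : ℝ) ^ (1 - a ^ 2 - ε) ≤ (Low a R n).ncard) ∧
        (∀ β : ℝ, |β| ≤ B →
          (R : ℝ) ^ (F β - ε) ≤ ∑ r ∈ Finset.Icc 1 R, Real.exp (β * D r n) ∧
          ∑ r ∈ Finset.Icc 1 R, Real.exp (β * D r n) ≤ (R : ℝ) ^ (F β + ε))} := ⟨_, rfl⟩
  rw [← hG]
  have h3 : ((Finset.Icc 1 N).filter fun n => Gz ε (B / (2 * Real.pi)) R n).card ≤ G.ncard := by
    rw [← Set.ncard_coe_finset]
    apply Set.ncard_le_ncard
    · intro n hn
      rw [Finset.mem_coe, Finset.mem_filter, Finset.mem_Icc] at hn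
      obtain ⟨hn1, hn2⟩ := hn
      rw [hG]
      refine ⟨hn1.1, hn1.2, fun a ha0 => ?_, fun a ha0 ha1 => ?_, fun β hβ => ?_⟩
      · rw [high_eq, low_eq, hpow]
        exact ⟨(hn2 1 (by norm_num)).1 a ha0, (hn2 (-1) (by norm_num)).1 a ha0⟩
      · rw [high_eq, low_eq, hpow]
        exact ⟨(hn2 1 (by norm_num)).2.1 a ha0 ha1, (hn2 (-1) (by norm_num)).2.1 a ha0 ha1⟩
      · obtain ⟨σ, hσ, hσβ⟩ : ∃ σ : ℝ, σ ^ 2 = 1 ∧ |β| * σ = β := by
          rcases le_or_gt 0 β with h | h
          · exact ⟨1, by norm_num, by rw [abs_of_nonneg h, mul_one]⟩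
          · exact ⟨-1, by norm_num, by rw [abs_of_neg h]; ring⟩
        have h4 := (hn2 σ hσ).2.2 (|β| / (2 * Real.pi)) (by positivity) (by gcongr)
        have h5 : ∀ r : ℕ, 2 * Real.pi * (|β| / (2 * Real.pi)) *
            (σ * (Pool.Agent.R320.CL.SS r n - r)) = β * D r n := fun r => by
          rw [D_eq, mul_div_cancel₀ _ (by positivity), ← mul_assoc, hσβ]
        rw [← F_eq] at h4
        simp only [h5] at h4
        rw [hpow, hpow]
        exact h4
    · rw [hG]
      exact (Set.finite_Icc 1 N).subset fun n hn => ⟨hn.1, hn.2.1⟩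
  have h4 : (((Finset.Icc 1 N).filter fun n => Gz ε (B / (2 * Real.pi)) R n).card : ℝ) +
      (((Finset.Icc 1 N).filter fun n => ¬ Gz ε (B / (2 * Real.pi)) R n).card : ℝ) = N := by
    exact_mod_cast h2
  have h5 : (((Finset.Icc 1 N).filter fun n => Gz ε (B / (2 * Real.pi)) R n).card : ℝ) ≤
      (G.ncard : ℝ) := by exact_mod_cast h3
  have h6 : (((Finset.Icc 1 N).filter fun n => ¬ Gz ε (B / (2 * Real.pi)) R n).card : ℝ) ≤ ε * N := by
    refine le_trans (le_of_eq ?_) h1
    norm_cast
  linarith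

end Pool.Agent.Results.MP_7eacff_nt.ThickPoints
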